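import Pool.Agent.H458.EC.Rat

/-!
# Lacunary entire curves in projective varieties (Green-Griffiths-Lang)

`X` is the common zero set of forms of degree at most `d` (`H458.EC.Forms d S`), `H458.EC.Cone S` its
affine cone; `f : ℂ → ℂ^n` is an entire lift of an entire curve in `X`, `H458.EC.tc f k` its `k`-th
Taylor coefficient at the origin and `E = {k | tc f k ≠ 0}` its set of exponents.
-/

namespace Pool.Agent.Results.MP_8d161d_ag.LacunaryEntireCurves

open H458.EC

theorem lines {n d : ℕ} {S : Set (MvPolynomial (Fin n) ℂ)} (hS : Forms d S)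
    {f : ℂ → Fin n → ℂ} (hf : Differentiable ℂ f) (hX : ∀ z, f z ∈ Cone S)
    (hE : Bh d {k | tc f k ≠ 0}) (hne : ∀ z, f z ≠ 0) (hc : NonConst f) (z : ℂ) :
    ∃ w, LinearIndependent ℂ ![f z, w] ∧ ∀ a b : ℂ, a • f z + b • w ∈ Cone S := by
  obtain ⟨w, hw⟩ : ∃ w, LinearIndependent ℂ ![f z, f w] := by
    by_contra hno
    push Not at hno
    obtain ⟨s, t, hst⟩ := hc
    have h1 := (not_li_iff _ _).1 (hno s)
    have h2 := (not_li_iff _ _).1 (hno t)
    obtain ⟨i, hi⟩ := Function.ne_iff.1 (hne z)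
    have hi' : f z i ≠ 0 := by simpa using hi
    refine (not_li_iff (f s) (f t)).2 ?_ hst
    intro j k
    have e : f z i * f z i * (f s j * f t k - f s k * f t j) = 0 := by
      linear_combination (f z i * f t k) * h1 i j - (f z i * f t j) * h1 i k
        + (f s i * f z j) * h2 i k - (f s i * f z k) * h2 i j
        + 0 * h1 j k
    have := mul_eq_zero.1 e
    rcases this with h | h
    · exact absurd (mul_self_eq_zero.1 h) hi'
    · exact h
  refine ⟨f w, hw, fun a b => ?_⟩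
  apply span_mem hS hf hX hE
  apply Submodule.add_mem
  · exact Submodule.smul_mem _ _ (Submodule.subset_span ⟨z, rfl⟩)
  · exact Submodule.smul_mem _ _ (Submodule.subset_span ⟨w, rfl⟩)

theorem result {n d : ℕ} (hd : 0 < d) {S : Set (MvPolynomial (Fin n) ℂ)} (hS : Forms d S)
    {f : ℂ → Fin n → ℂ} (hf : Differentiable ℂ f) (hX : ∀ z, f z ∈ Cone S) :
    -- character principle
    (∀ (χ : ℕ → ℂ) (C R : ℝ), 0 ≤ R → (∀ k, tc f k ≠ 0 → ‖χ k‖ ≤ C * R ^ k) →
      Fr d {k | tc f k ≠ 0} χ →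
      ∀ z, Summable (fun k => (χ k * z ^ k) • tc f k) ∧ ∑' k, (χ k * z ^ k) • tc f k ∈ Cone S) ∧
    -- exponents forming a Sidon set of order `d`
    (Bh d {k | tc f k ≠ 0} →
      (∀ v ∈ Submodule.span ℂ (Set.range f), v ∈ Cone S) ∧
      ((∀ z, f z ≠ 0) → NonConst f →
        ∀ z, ∃ w, LinearIndependent ℂ ![f z, w] ∧ ∀ a b : ℂ, a • f z + b • w ∈ Cone S)) ∧
    -- exponents with small residues modulo `q`
    (∀ q : ℕ, 0 < q → (∀ k, tc f k ≠ 0 → d * (k % q) < q) →
      (∀ z, ¬ LinearIndependent ℂ ![f (Complex.exp (2 * Real.pi * Complex.I / q) * z), f z]) ∨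
      ∀ Y : Set (Fin n → ℂ), IsClosed Y →
        (∀ v : Fin ((q - 1) / d + 1) → Fin n → ℂ, (∀ t, poly v t ∈ Cone S) → NonConst (poly v) →
          ∀ t, poly v t ∈ Y) → ∀ z, f z ∈ Y) :=
  ⟨fun _ _ _ hR hb hχ z => ⟨summable_tw hf hR hb z, character hS hf hX hR hb hχ z⟩,
    fun hE => ⟨fun _ hv => span_mem hS hf hX hE hv, fun hne hc z => lines hS hf hX hE hne hc z⟩,
    fun _ hq hE => residue hq hd hS hf hX hE⟩

end Pool.Agent.Results.MP_8d161d_ag.LacunaryEntireCurves
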